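import Pool.Agent.Lib_MP_debbfb_ins.Count

/-!
# MP_debbfb_al: a simple locally finite product of two locally nilpotent groups

Philip Hall's universal countable locally finite group is the product of two 2-subgroups.
-/

set_option autoImplicit false

namespace Pool.Agent.Results.MP_debbfb_al.HallUniversalGroup

/-- locally finite: every finitely generated subgroup is finite -/
def LocFinite (G : Type) [Group G] : Prop := ∀ K : Subgroup G, K.FG → Finite K

/-- locally nilpotent: every finitely generated subgroup is nilpotent -/
def LocNilpotent (G : Type) [Group G] : Prop := ∀ K : Subgroup G, K.FG → Group.IsNilpotent K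

/-- locally soluble: every finitely generated subgroup is soluble -/
def LocSoluble (G : Type) [Group G] : Prop := ∀ K : Subgroup G, K.FG → Group.IsSolvable K

open Pool.MP_debbfb_al.Hall in
private theorem locn (A : Subgroup Lim) (hA : IsPGroup 2 A) : LocNilpotent A := by
  intro K hK
  have h1 : (K.map A.subtype).FG := by
    classical
    obtain ⟨S, rfl⟩ := hK
    refine ⟨S.image A.subtype, ?_⟩
    rw [MonoidHom.map_closure, Finset.coe_image]
  have h2 := nilp_of_p A hA (K.map A.subtype) (Subgroup.map_subtype_le K) h1
  have e : K ≃* K.map A.subtype := K.equivMapOfInjective A.subtype A.subtype_injective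
  exact Group.nilpotent_of_mulEquiv e.symm

open Pool.MP_debbfb_al.Hall in
/-- There is a countable simple locally finite group `G` which is the product of two locally nilpotent subgroups
`A` and `B` (both are 2-groups) and is not locally soluble. Every countable locally finite group embeds in `G`, and
any two embeddings of a finite group in `G` are conjugate: `G` is Hall's universal group. -/
theorem result : ∃ (G : Type) (_ : Group G) (A B : Subgroup G),
    Countable G ∧ IsSimpleGroup G ∧ LocFinite G ∧ ¬ LocSoluble G ∧
    LocNilpotent A ∧ LocNilpotent B ∧ IsPGroup 2 A ∧ IsPGroup 2 B ∧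
    (∀ g : G, ∃ a ∈ A, ∃ b ∈ B, g = a * b) ∧
    (∀ (H : Type) [Group H], Countable H → LocFinite H → ∃ f : H →* G, Function.Injective f) ∧
    (∀ (F : Type) [Group F] [Finite F] (f g : F →* G), Function.Injective f → Function.Injective g →
      ∃ x, ∀ y, g y = x * f y * x⁻¹) := by
  refine ⟨Lim, inferInstance, LA, LB, lim_countable, lim_simple, lim_fin, ?_, locn LA LA_p, locn LB LB_p, LA_p,
    LB_p, lim_prod, fun H _ hc hH => lim_count H hH, lim_homog⟩
  intro h
  obtain ⟨f, hf⟩ := lim_univ (Equiv.Perm (Fin 5))
  have h1 : Finite f.range := Finite.of_surjective _ f.rangeRestrict_surjective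
  have h2 : Group.IsSolvable f.range := h f.range ((Group.fg_iff_subgroup_fg _).1 inferInstance)
  have h3 : Group.IsSolvable (Equiv.Perm (Fin 5)) :=
    Group.isSolvable_of_isSolvable_injective (f := f.rangeRestrict) (fun a b hab => hf (congrArg Subtype.val hab))
  exact Equiv.Perm.not_isSolvable_fin_5 h3

end Pool.Agent.Results.MP_debbfb_al.HallUniversalGroup
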